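import Pool.Agent.helper29.JZ.Spec

set_option autoImplicit false

open Finset Polynomial Module

namespace Pool.Agent.helper79.JZ

open Pool.Agent.helper29.JZ

theorem REA_m {h h' : ℕ} (M : Finset (Fin h × Fin h')) (hM : 0 < (PA M).card) : 1 ≤ mA M := by
  classical
  obtain ⟨z, hz⟩ := card_pos.mp hM
  have h1 : 1 ≤ ((PA M).filter fun w => w.2 = z.2).card :=
    card_pos.mpr ⟨z, mem_filter.mpr ⟨hz, rfl⟩⟩
  have h2 : ((PA M).filter fun w => w.2 = z.2).card ≤ mA M :=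
    le_sup (f := fun m : Fin h' => ((PA M).filter fun w => w.2 = m).card) (mem_univ z.2)
  exact h1.trans h2

theorem REA_pos {h h' : ℕ} (M : Finset (Fin h × Fin h')) (a : ℕ) (h1 : mA M ≤ a) (h2 : a + mA M ≠ (PA M).card) :
    1 ≤ a := by
  by_contra h3
  have ha : a = 0 := by omega
  have hm : mA M = 0 := by omega
  rcases Nat.eq_zero_or_pos (PA M).card with h4 | h4
  · omega
  · have := REA_m M h4
    omega

theorem jz_REA : REA_stmt := by
  classical
  intro hTRA hTRB hHZL hRE1 hRE2 hRE3 h h' M a b r hJ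
  obtain ⟨tA, tB, tmA, tmB, tsA, tsB, tAB, tHC⟩ := hTRB hTRA h h' M
  have hbl : 2 * b ≤ (PA (tr M)).card := by
    rw [tA]
    exact hJ.b_le
  by_cases ea : a + mA M = (PA M).card
  · by_cases eb : b + mB M = (PB M).card
    · -- both equalities
      have hx : Function.Injective (fun k : Fin h => ((k : ℕ) : ℂ)) := fun k k' hk =>
        Fin.ext (Nat.cast_injective hk)
      have hy : Function.Injective (fun k : Fin h' => ((k : ℕ) : ℂ)) := fun k k' hk =>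
        Fin.ext (Nat.cast_injective hk)
      obtain ⟨P, Q, hPQ⟩ := hHZL h h' (fun k => ((k : ℕ) : ℂ)) (fun k => ((k : ℕ) : ℂ)) M a hy hJ.a_le ea
      obtain ⟨P', Q', hPQ'⟩ := hHZL h' h (fun k => ((k : ℕ) : ℂ)) (fun k => ((k : ℕ) : ℂ)) (tr M) b hx hbl
        (by rw [tmA, tA]; exact eb)
      exact ⟨_, _, P, Q, P', Q', hx, hy, hPQ, hPQ'⟩
    · have hb := hJ.b_eq.resolve_right eb
      have hb1 : 1 ≤ b := REA_pos (tr M) b (by rw [tmA]; exact hb) (by rw [tmA, tA]; exact eb)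
      obtain ⟨y, x, hy, hx, hC⟩ := hRE1 h' h (tr M) b hb1 (by rw [tmA]; exact hb) hbl
      obtain ⟨P, Q, hPQ⟩ := hHZL h h' x y M a hy hJ.a_le ea
      exact ⟨x, y, P, Q, _, _, hx, hy, hPQ, hC⟩
  · have ha := hJ.a_eq.resolve_right ea
    have ha1 : 1 ≤ a := REA_pos M a ha ea
    by_cases eb : b + mB M = (PB M).card
    · obtain ⟨x, y, hx, hy, hC⟩ := hRE1 h h' M a ha1 ha hJ.a_le
      obtain ⟨P', Q', hPQ'⟩ := hHZL h' h y x (tr M) b hx hbl (by rw [tmA, tA]; exact eb)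
      exact ⟨x, y, _, _, P', Q', hx, hy, hC, hPQ'⟩
    · have hb := hJ.b_eq.resolve_right eb
      have hb1 : 1 ≤ b := REA_pos (tr M) b (by rw [tmA]; exact hb) (by rw [tmA, tA]; exact eb)
      rcases hJ.joint with hj | ⟨p, α, β, hp, e1, e2, h3, h4, h5, h6⟩
      · obtain ⟨x, y, hx, hy, hC, hC'⟩ := hRE2 h h' M a b ha1 ha hJ.a_le hb1 hb hJ.b_le hj
        exact ⟨x, y, _, _, _, _, hx, hy, hC, hC'⟩
      · obtain ⟨x, y, hx, hy, hC, hC'⟩ := hRE3 h h' M a b p α β hJ.a_le hJ.b_le hp e1 e2 h3 h4 h5 h6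
        exact ⟨x, y, _, _, _, _, hx, hy, hC, hC'⟩

end Pool.Agent.helper79.JZ
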